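import Pool.Agent.E870.Q.Faith

/-!
# The Lefschetz standard conjecture
-/

open CategoryTheory CategoryTheory.Limits AlgebraicGeometry
open Pool.Agent.H914 Pool.Agent.H914.VarClass Pool.Agent.H914.VarClass.Obj Pool.Agent.R903

universe u v w

namespace Pool.Agent.E870.Q

/-- `T (c (x ^ n) * a) = a` for all `a` in `M` -/
def InvertsPow {K : Type w} [Field K] {V : Type w} [Ring V] [Algebra K V] {A : Type v} [CommRing A]
    (M : Submodule K V) (T : V →ₗ[K] V) (c : A →+* V) (x : A) (n : ℕ) : Prop :=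
  ∀ a ∈ M, T (c (x ^ n) * a) = a

variable {k : Type u} [Field k] {𝒱 : VarClass k} {C : ChowTheory.{u, v} 𝒱}

/-- The Lefschetz standard conjecture for `X`: for some divisor class `D` and all `j ≤ dim X` a
left inverse of the operator `D^(dim X - j)` from `H^j(X)` to `H^(2 dim X - j)(X)` is given by a
correspondence. -/
def LefschetzStd (W : WeilTheory.{u, v, w} C) (X : 𝒱.Obj) : Prop :=
  ∃ D : C.CH X, In (C.gr X 1) D ∧ ∀ j : ℕ, j ≤ X.dim → ∃ Λ : C.CH (X.prod X),
    In (C.gr (X.prod X) j) Λ ∧ InvertsPow (W.gr X j) (W.act Λ) (W.cl X) D (X.dim - j)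

end Pool.Agent.E870.Q
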