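import Pool.Agent.E870.Q.Fil

/-!
# Bloch–Beilinson filtrations: definition
-/

open CategoryTheory CategoryTheory.Limits AlgebraicGeometry
open Pool.Agent.H914 Pool.Agent.H914.VarClass Pool.Agent.H914.VarClass.Obj Pool.Agent.R903

universe u v w

namespace Pool.Agent.E870.Q

section

variable {A B : Type v} [CommRing A] [Algebra ℚ A] [CommRing B] [Algebra ℚ B]

/-- `f x` lies in `N`, for a homomorphism of algebras `f`. -/
def AlgMapsInto (f : A →ₐ[ℚ] B) (N : Submodule ℚ B) (x : A) : Prop := f x ∈ N

/-- `x * y` lies in `N`. -/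
def ProductIn (N : Submodule ℚ A) (x y : A) : Prop := x * y ∈ N

end

variable {k : Type u} [Field k] {𝒱 : VarClass k} {C : ChowTheory.{u, v} 𝒱}

/-- The filtrations are compatible with the intersection product, with
pull-back and with push-forward, for the varieties in `P`. -/
structure IsMultiplicative (C : ChowData.{u, v} 𝒱) (P : 𝒱.Obj → Prop) (F : Fil C) : Prop where
  mul : ∀ {X : 𝒱.Obj}, P X → ∀ {i j ν μ : ℕ} {x y : C.CH X}, In (F X i ν) x → In (F X j μ) y →
    ProductIn (F X (i + j) (ν + μ)) x y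
  pull : ∀ {X Y : 𝒱.Obj}, P X → P Y → ∀ (f : Mor X Y) {i ν : ℕ} {y : C.CH Y}, In (F Y i ν) y →
    AlgMapsInto (C.pull f) (F X i ν) y
  push : ∀ {X Y : 𝒱.Obj}, P X → P Y → ∀ (f : Mor X Y) {i j ν : ℕ} {x : C.CH X}, In (F X i ν) x →
    i + Y.dim = j + X.dim → LinMapsInto (C.push f) (F Y j ν) x

/-- `F` is a Bloch–Beilinson filtration on the Chow groups of the varieties in `P`, in the sense of
the conditions 1 to 5. -/
structure IsBlochBeilinson (W : WeilTheory.{u, v, w} C) (P : 𝒱.Obj → Prop)
    (F : Fil C.toChowData) : Prop where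
  isFiltration : IsFiltration W P F
  isMultiplicative : IsMultiplicative C.toChowData P F
  factors : FactorsThroughCoh W P F

end Pool.Agent.E870.Q
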