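import Pool.Agent.E870.Q.Fil

/-!
# Bloch–Beilinson filtrations whose second step is the kernel of the Abel–Jacobi maps
-/

open CategoryTheory CategoryTheory.Limits AlgebraicGeometry
open Pool.Agent.H914 Pool.Agent.H914.VarClass Pool.Agent.H914.VarClass.Obj Pool.Agent.R903

universe u v w

namespace Pool.Agent.E870.Q

variable {k : Type u} [Field k] {𝒱 : VarClass k} {C : ChowTheory.{u, v} 𝒱}

/-- The subspaces `K X i` of `CH^i(X)` behave as the kernels of the Abel–Jacobi maps from the
homologically trivial classes in `CH^i(X)` to the intermediate Jacobians: they consist of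
homologically trivial classes, correspondences map them to one another, and a correspondence from
`X` to `Y` which acts as zero on `H^(2i-1)(X)` maps all homologically trivial classes in `CH^i(X)`
to them. -/
structure IsAbelJacobiKernel (W : WeilTheory.{u, v, w} C)
    (K : ∀ X : 𝒱.Obj, ℕ → Submodule ℚ (C.CH X)) : Prop where
  homTrivial : ∀ {X : 𝒱.Obj} {i : ℕ} {x : C.CH X}, In (K X i) x → In (C.gr X i) x ∧ HomTrivial W x
  corr : ∀ {X Y : 𝒱.Obj} {c i j : ℕ} {γ : C.CH (X.prod Y)} {x : C.CH X},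
    In (C.gr (X.prod Y) c) γ → i + c = j + X.dim → In (K X i) x → LinMapsInto (C.act γ) (K Y j) x
  zero : ∀ {X Y : 𝒱.Obj} {c i j m : ℕ} {γ : C.CH (X.prod Y)} {x : C.CH X},
    In (C.gr (X.prod Y) c) γ → i + c = j + X.dim → m + 1 = 2 * i → ZeroOn W m γ →
      In (C.gr X i) x → HomTrivial W x → LinMapsInto (C.act γ) (K Y j) x

/-- `F` is a Bloch–Beilinson filtration on the Chow groups of the varieties in `P`, in the sense of
the conditions 1 to 4: it is decreasing, `F^0 CH^i(X) = CH^i(X)`, `F^1 CH^i(X)` consists of the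
homologically trivial classes, `F^2 CH^i(X) = K X i` is the kernel of the Abel–Jacobi map,
`F^(i+1) CH^i(X) = 0`, all correspondences respect the filtrations, and a correspondence which acts
as zero on `H^(2i-ν)(X)` maps `F^ν CH^i(X)` to `F^(ν+1)`. -/
structure IsBlochBeilinsonAJ (W : WeilTheory.{u, v, w} C)
    (K : ∀ X : 𝒱.Obj, ℕ → Submodule ℚ (C.CH X)) (P : 𝒱.Obj → Prop) (F : Fil C.toChowData) :
    Prop where
  isFiltration : IsFiltration W P F
  two : ∀ {X : 𝒱.Obj}, P X → ∀ i x, In (F X i 2) x ↔ In (K X i) x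
  corr : ∀ {X Y : 𝒱.Obj}, P X → P Y → ∀ {c i j ν : ℕ} {γ : C.CH (X.prod Y)} {x : C.CH X},
    In (C.gr (X.prod Y) c) γ → i + c = j + X.dim → In (F X i ν) x →
      LinMapsInto (C.act γ) (F Y j ν) x
  factors : FactorsThroughCoh W P F

/-- For each Chow–Künneth decomposition of `X` and `dim X = 2i - 1`, the only class in
`CH^i(h^(2i-1)(X))`, that is, in `CH^i(X)` and fixed by the projector `π (2i-1)`, which lies in the
kernel `K X i` of the Abel–Jacobi map, is `0`. -/
def AbelJacobiInjMid (W : WeilTheory.{u, v, w} C) (K : ∀ X : 𝒱.Obj, ℕ → Submodule ℚ (C.CH X))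
    (X : 𝒱.Obj) : Prop :=
  ∀ π : ℕ → C.CH (X.prod X), W.IsCK X π → ∀ (i : ℕ) (x : C.CH X), X.dim + 1 = 2 * i →
    In (K X i) x → IsFixed (C.act (π X.dim)) x → IsNull x

end Pool.Agent.E870.Q
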