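import Mathlib

/-!
# Short names for conditions on elements of algebras
-/

universe u v w

namespace Pool.Agent.E870.Q

section Rat

variable {A B : Type v} [CommRing A] [Algebra ℚ A] [CommRing B] [Algebra ℚ B]

/-- `x = 0` -/
def IsNull {A : Type v} [CommRing A] (x : A) : Prop := x = 0

/-- `x` lies in the subspace `M`. -/
def In (M : Submodule ℚ A) (x : A) : Prop := x ∈ M

/-- `x` is a linear combination of elements with the property `s`. -/
def InSpan (s : A → Prop) (x : A) : Prop := x ∈ Submodule.span ℚ {y | s y}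

/-- `y` is in the image of `f`. -/
def IsImage (f : A →ₗ[ℚ] B) (y : B) : Prop := ∃ x, f x = y

/-- `f x = 0` -/
def MapsToZero (f : A →ₐ[ℚ] B) (x : A) : Prop := f x = 0

/-- `f x = x` -/
def IsFixed (f : A →ₗ[ℚ] A) (x : A) : Prop := f x = x

/-- `f x = 0` -/
def IsKilled (f : A →ₗ[ℚ] B) (x : A) : Prop := f x = 0

/-- `deg (f x) = 0` -/
def HasDegZero (deg : B →ₗ[ℚ] ℚ) (f : A →ₐ[ℚ] B) (x : A) : Prop := deg (f x) = 0

/-- `deg (x * y) ≠ 0` -/
def PairsNonzero (deg : A →ₗ[ℚ] ℚ) (x y : A) : Prop := deg (x * y) ≠ 0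

/-- `deg (x ^ n) ≠ 0` for some `x` in `M` -/
def HasTopPower (deg : A →ₗ[ℚ] ℚ) (M : Submodule ℚ A) (n : ℕ) : Prop := ∃ x ∈ M, deg (x ^ n) ≠ 0

end Rat

section Field

variable {K : Type w} [Field K] {V V' : Type w} [Ring V] [Algebra K V] [Ring V'] [Algebra K V']

/-- `T a = 0` for all `a` in `M` -/
def IsZeroOn (M : Submodule K V) (T : V →ₗ[K] V') : Prop := ∀ a ∈ M, T a = 0

/-- `T a = a` for all `a` in `M` -/
def IsIdOn (M : Submodule K V) (T : V →ₗ[K] V) : Prop := ∀ a ∈ M, T a = a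

/-- `f x = 0` -/
def RingKills {A : Type v} [CommRing A] {H : Type w} [Ring H] (f : A →+* H) (x : A) : Prop :=
  f x = 0

end Field

end Pool.Agent.E870.Q
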