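import Pool.Agent.R903.Corr
import Pool.Agent.E870.Q.Alg

/-!
# Degenerating families of curves and the decomposition principle

`SmVar`, `VarClass`, `ChowData`, `ChowTheory`, `WeilTheory` and `IsCK` are those of the starting
files `Pool.Agent.H914R2.Var`, `Pool.Agent.R903.Chow` and `Pool.Agent.R903.Corr`.
-/

open CategoryTheory CategoryTheory.Limits AlgebraicGeometry
open Pool.Agent.H914 Pool.Agent.H914.VarClass Pool.Agent.H914.VarClass.Obj Pool.Agent.R903

universe u v w

namespace Pool.Agent.E870.Q

/-- `Q` holds for all `k`-valued points of some nonempty open subscheme `U` of `S`. -/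
def ForGeneral (k : Type u) [Field k] (S : Scheme.{u}) (Q : (Spec (.of k) ⟶ S) → Prop) : Prop :=
  ∃ U : S.Opens, (U : Set S).Nonempty ∧ ∀ s : Spec (.of k) ⟶ U.toScheme, Q (s ≫ U.ι)

variable {k : Type u} [Field k] {𝒱 : VarClass k}

/-- Morphisms of varieties. -/
abbrev Mor (X Y : 𝒱.Obj) : Type u := X ⟶ Y

/-- The underlying morphism of schemes. -/
abbrev toSch {X Y : 𝒱.Obj} (f : Mor X Y) : X.V.X ⟶ Y.V.X := SmVar.Hom.hom (X := X.V) (Y := Y.V) f

/-- The `k`-valued points of the scheme `S`. -/
abbrev Pt (S : 𝒱.Obj) : Type u := Spec (.of k) ⟶ S.V.X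

/-- `s` is a `k`-rational point of `S`, that is a section of the structure morphism. -/
def IsPoint {S : 𝒱.Obj} (s : Pt S) : Prop := s ≫ S.V.str = 𝟙 _

/-- `i : E ⟶ V` is the scheme-theoretic fibre of `f : V ⟶ S` over the `k`-rational point `s`. -/
def IsFibreAt {E V S : 𝒱.Obj} (i : Mor E V) (f : Mor V S) (s : Pt S) : Prop :=
  IsPoint s ∧ IsPullback (toSch i) E.V.str (toSch f) s

/-- `i : E ⟶ V` is the scheme-theoretic fibre of `f : V ⟶ S` over some `k`-rational point. -/
def IsFibre {E V S : 𝒱.Obj} (i : Mor E V) (f : Mor V S) : Prop := ∃ s : Pt S, IsFibreAt i f s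

/-- The fibres of `f` over the `k`-rational points of some nonempty open subscheme of `S` are
smooth, geometrically irreducible varieties which belong to the class `𝒱`. -/
def HasGeneralFibres {V S : 𝒱.Obj} (f : Mor V S) : Prop :=
  ForGeneral k S.V.X fun s => IsPoint s → ∃ (E : 𝒱.Obj) (i : Mor E V), IsFibreAt i f s

/-- `w : W ⟶ V` is such that `W ⟶ V ⟶ S` factors through a variety `T` with `dim T < dim S`. -/
def IsOverSmaller {V S : 𝒱.Obj} (f : Mor V S) {W : 𝒱.Obj} (w : Mor W V) : Prop :=
  ∃ (T : 𝒱.Obj) (g : Mor W T) (h : Mor T S), w ≫ f = g ≫ h ∧ T.dim < S.dim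

/-- The morphism `Y × W ⟶ Y × V` given by `w : W ⟶ V`. -/
noncomputable def times (Y : 𝒱.Obj) {V W : 𝒱.Obj} (w : Mor W V) : Mor (Y.prod W) (Y.prod V) :=
  lift (fst Y W) (snd Y W ≫ w)

/-- `γ` is the push-forward of a class on `Y × W` by a morphism `w : W ⟶ V` such that `W ⟶ V ⟶ S`
factors through a variety `T` with `dim T < dim S`. -/
def IsFromSmaller (C : ChowData.{u, v} 𝒱) {V S : 𝒱.Obj} (f : Mor V S) (Y : 𝒱.Obj)
    (γ : C.CH (Y.prod V)) : Prop :=
  ∃ (W : 𝒱.Obj) (w : Mor W V), IsOverSmaller f w ∧ IsImage (C.push (times Y w)) γ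

/-- The decomposition principle of Bloch and Srinivas: if the restriction of a class in
`CH(Y × V)` to `Y × E` is zero for all fibres `E` of `f : V ⟶ S` over `k`-rational points, then the
class is a sum of push-forwards of classes on `Y × W` for varieties `W` over `V` which lie over
proper closed subsets of `S`. (For the Chow groups with rational coefficients of all smooth
projective varieties over an uncountable algebraically closed field this is a theorem of Bloch and
Srinivas.) -/
def BlochSrinivas (C : ChowData.{u, v} 𝒱) : Prop :=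
  ∀ {V S : 𝒱.Obj} (f : Mor V S), HasGeneralFibres f → ∀ (Y : 𝒱.Obj) (Γ : C.CH (Y.prod V)),
    (∀ (E : 𝒱.Obj) (i : Mor E V), IsFibre i f → MapsToZero (C.pull (times Y i)) Γ) →
      InSpan (IsFromSmaller C f Y) Γ

/-- A degenerating family of curves: a morphism `f : V ⟶ S` whose general fibres are curves, with a
divisor class `θ` of degree `0` on these curves, and a class `τ` with `deg(θ · τ) ≠ 0` whose
pull-back to each variety `W` over `V`, such that `W ⟶ V ⟶ S` factors through a variety `T` with
`dim T < dim S`, is zero.

Example over an algebraically closed field of characteristic zero: let `q : S ⟶ ℙ¹` be a rational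
elliptic surface with a section `o` and with nodal singular fibres, `V` the blow-up of `S ×_ℙ¹ S`
along the diagonal, `f` the first projection, `θ` the class of the diagonal minus the class of
`S × o`, and `τ = θ · f^* q^* [0]`, where the fibre of `q` over `0` is nodal. On the fibre
`E_b × E_b` of `V` over a general point `b` the class `θ` has self-intersection `-2`, whence
`deg(θ · τ) = -2`. And if `W` lies over a curve `T`, then the pull-back of `τ` to `W` is a
combination of pull-backs of cycles of degree `0` on the fibres of a surface over the points of `T`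
above `0`; these fibres are connected unions of rational curves, so that the cycles are `0`. -/
structure IsDegenerating (C : ChowData.{u, v} 𝒱) {V S : 𝒱.Obj} (f : Mor V S) (θ τ : C.CH V) :
    Prop where
  general : HasGeneralFibres f
  mem : In (C.gr V 1) θ
  dim_fibre : ∀ (E : 𝒱.Obj) (i : Mor E V), IsFibre i f → E.dim = 1
  deg_fibre : ∀ (E : 𝒱.Obj) (i : Mor E V), IsFibre i f → HasDegZero (C.deg E) (C.pull i) θ
  small : ∀ (W : 𝒱.Obj) (w : Mor W V), IsOverSmaller f w → MapsToZero (C.pull w) τ
  deg_ne : PairsNonzero (C.deg V) θ τ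

/-- There is a degenerating family of curves in the class `𝒱`. -/
def HasDegenerating (C : ChowData.{u, v} 𝒱) : Prop :=
  ∃ (V S : 𝒱.Obj) (f : Mor V S) (θ τ : C.CH V), IsDegenerating C f θ τ

/-- Every variety has a divisor class with nonzero top self-intersection number: this holds for
projective varieties, by taking the class of an ample divisor. -/
def HasPolarizations (C : ChowData.{u, v} 𝒱) : Prop :=
  ∀ X : 𝒱.Obj, HasTopPower (C.deg X) (C.gr X 1) X.dim

/-- The hypotheses on the theory of Chow groups: all three hold for the Chow groups with rational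
coefficients of all smooth projective varieties over an uncountable algebraically closed field of
characteristic zero. -/
structure IsGeometric (C : ChowData.{u, v} 𝒱) : Prop where
  hasPolarizations : HasPolarizations C
  blochSrinivas : BlochSrinivas C
  hasDegenerating : HasDegenerating C

/-- The set `P` of varieties is closed under products and contains all curves of the class `𝒱`. -/
structure IsClosedClass (P : 𝒱.Obj → Prop) : Prop where
  prod_mem : ∀ {X Y : 𝒱.Obj}, P X → P Y → P (X.prod Y)
  curve_mem : ∀ {E : 𝒱.Obj}, E.dim = 1 → P E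

end Pool.Agent.E870.Q
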