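import Pool.Agent.E870.Q.Faith
import Pool.Agent.R903.MurreDefs

/-!
# Forms of Murre's conjectures
-/

open CategoryTheory CategoryTheory.Limits AlgebraicGeometry
open Pool.Agent.H914 Pool.Agent.H914.VarClass Pool.Agent.H914.VarClass.Obj Pool.Agent.R903

universe u v w

namespace Pool.Agent.E870.Q

variable {k : Type u} [Field k] {𝒱 : VarClass k} {C : ChowTheory.{u, v} 𝒱}

/-- Murre's conjecture (D) for `X`: for each Chow–Künneth decomposition of `X` and each `i`, the
group `F^1 CH^i(X)` is the group of the homologically trivial classes in `CH^i(X)`. -/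
def MurreD (W : WeilTheory.{u, v, w} C) (X : 𝒱.Obj) : Prop :=
  ∀ π : ℕ → C.CH (X.prod X), W.IsCK X π → ∀ (i : ℕ) (x : C.CH X),
    In (C.ckFil π i 1) x ↔ In (C.gr X i) x ∧ HomTrivial W x

/-- For each Chow–Künneth decomposition of `X` the only homologically trivial class in
`CH^i(h^(2i)(X))`, that is, in `CH^i(X)` and fixed by the projector `π (2i)`, is `0`, where
`dim X = 2i`. -/
def MurreD0Mid (W : WeilTheory.{u, v, w} C) (X : 𝒱.Obj) : Prop :=
  ∀ π : ℕ → C.CH (X.prod X), W.IsCK X π → ∀ (i : ℕ) (x : C.CH X), X.dim = 2 * i →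
    In (C.gr X i) x → IsFixed (C.act (π (2 * i))) x → HomTrivial W x → IsNull x

/-- For each Chow–Künneth decomposition of `X` one has `CH^i(h^(2i+1)(X)) = 0`, where
`dim X = 2i + 1`. -/
def NoExcessMid (W : WeilTheory.{u, v, w} C) (X : 𝒱.Obj) : Prop :=
  ∀ π : ℕ → C.CH (X.prod X), W.IsCK X π → ∀ (i : ℕ) (x : C.CH X), X.dim = 2 * i + 1 →
    In (C.gr X i) x → IsKilled (C.act (π (2 * i + 1))) x

/-- For each Chow–Künneth decomposition of `X` there is no nonzero morphism from the motive
`h^d(X)` to the motive `h^(d+1)(X)`, `d = dim X`: one has `π (d+1) ∘ γ ∘ π d = 0` for all `γ` in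
`CH^d(X × X)`. -/
def NoHomMid (W : WeilTheory.{u, v, w} C) (X : 𝒱.Obj) : Prop :=
  ∀ π : ℕ → C.CH (X.prod X), W.IsCK X π → ∀ γ : C.CH (X.prod X), In (C.gr (X.prod X) X.dim) γ →
    IsNull (C.comp (C.comp (π X.dim) γ) (π (X.dim + 1)))

/-- `γ` is of the form `β ∘ α` with `α ∈ CH^a(X × Z)` and `β ∈ CH^b(Z × X)`, `a + b = dim Z + dim X`,
for a variety `Z` with `dim Z + dim X ≤ j + a`. (The inequality says that `α` maps `CH^i(X)` for
`i > j` to a group `CH^l(Z)` with `l > dim Z`. Examples of such `α` are the pull-back to a variety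
`Z` of dimension at most `j` over `X`, where `a = dim X`, and for `Z = X` the multiplication by a
class of codimension `dim X - j`.) -/
def FactorsLow (C : ChowTheory.{u, v} 𝒱) {X : 𝒱.Obj} (j : ℕ) (γ : C.CH (X.prod X)) : Prop :=
  ∃ (Z : 𝒱.Obj) (a b : ℕ), a + b = Z.dim + X.dim ∧ Z.dim + X.dim ≤ j + a ∧
    ∃ (α : C.CH (X.prod Z)) (β : C.CH (Z.prod X)), In (C.gr (X.prod Z) a) α ∧
      In (C.gr (Z.prod X) b) β ∧ C.comp α β = γ

/-- For each `j` the identity of `H^j(X)` is the action of a linear combination of correspondences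
as in `FactorsLow C j`: the group `H^j(X)` is a direct factor, by means of correspondences, of the
cohomology of varieties `Z` as there. This holds if `X` satisfies the Lefschetz standard conjecture,
with `Z = X`: see `LefschetzStd.isLow`. -/
def IsLow (W : WeilTheory.{u, v, w} C) (X : 𝒱.Obj) : Prop :=
  ∀ j : ℕ, ∃ ε : C.CH (X.prod X), InSpan (FactorsLow C j) ε ∧ IsIdOn (W.gr X j) (W.act ε)

/-- The class of the varieties `X` which have a Chow–Künneth decomposition and satisfy `IsLow`. It
is closed under products and contains the curves, the surfaces, the abelian varieties, the complete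
intersections, and all varieties which have a Chow–Künneth decomposition and satisfy the Lefschetz
standard conjecture. -/
def LowClass (W : WeilTheory.{u, v, w} C) (X : 𝒱.Obj) : Prop :=
  W.HasCK X ∧ IsLow W X

end Pool.Agent.E870.Q
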