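import Pool.Agent.E870.Q.Defs

/-!
# Faithfulness of the action of the endomorphisms of `h^d(X)` on `H^d(X)`
-/

open CategoryTheory CategoryTheory.Limits AlgebraicGeometry
open Pool.Agent.H914 Pool.Agent.H914.VarClass Pool.Agent.H914.VarClass.Obj Pool.Agent.R903

universe u v w

namespace Pool.Agent.E870.Q

variable {k : Type u} [Field k] {𝒱 : VarClass k} {C : ChowTheory.{u, v} 𝒱}

/-- The class `x` is homologically trivial. -/
def HomTrivial (W : WeilTheory.{u, v, w} C) {X : 𝒱.Obj} (x : C.CH X) : Prop :=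
  RingKills (W.cl X) x

/-- The correspondence `γ` acts as zero on `H^b(X)`. -/
def ZeroOn (W : WeilTheory.{u, v, w} C) {X Y : 𝒱.Obj} (b : ℕ) (γ : C.CH (X.prod Y)) : Prop :=
  IsZeroOn (W.gr X b) (W.act γ)

/-- `X` has a Chow–Künneth decomposition. -/
def HasDecomposition (W : WeilTheory.{u, v, w} C) (X : 𝒱.Obj) : Prop :=
  ∃ π : ℕ → C.CH (X.prod X), W.IsCK X π

/-- For each Chow–Künneth decomposition of `X` the endomorphism ring
`π d ∘ CH^d(X × X) ∘ π d` of the motive `h^d(X)`, `d = dim X`, acts faithfully on the middle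
cohomology group `H^d(X)`. -/
def FaithfulMid (W : WeilTheory.{u, v, w} C) (X : 𝒱.Obj) : Prop :=
  ∀ π : ℕ → C.CH (X.prod X), W.IsCK X π → ∀ γ : C.CH (X.prod X), In (C.gr (X.prod X) X.dim) γ →
    C.comp (C.comp (π X.dim) γ) (π X.dim) = γ → ZeroOn W X.dim γ → IsNull γ

end Pool.Agent.E870.Q
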