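import Pool.Agent.E870.Q.Faith

/-!
# Filtrations on the Chow groups
-/

open CategoryTheory CategoryTheory.Limits AlgebraicGeometry
open Pool.Agent.H914 Pool.Agent.H914.VarClass Pool.Agent.H914.VarClass.Obj Pool.Agent.R903

universe u v w

namespace Pool.Agent.E870.Q

/-- `f x` lies in `N`, for a linear map `f`. -/
def LinMapsInto {A B : Type v} [CommRing A] [Algebra ℚ A] [CommRing B] [Algebra ℚ B]
    (f : A →ₗ[ℚ] B) (N : Submodule ℚ B) (x : A) : Prop := f x ∈ N

variable {k : Type u} [Field k] {𝒱 : VarClass k} {C : ChowTheory.{u, v} 𝒱}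

/-- Families of subspaces `F X i ν` of the rings `CH(X)`, for `i ν : ℕ`. -/
abbrev Fil (C : ChowData.{u, v} 𝒱) : Type (max (u + 1) v) :=
  ∀ X : 𝒱.Obj, ℕ → ℕ → Submodule ℚ (C.CH X)

/-- The first conditions on the filtrations `F X i ν = F^ν CH^i(X)`, for the varieties in `P`: they
are decreasing, `F^0 CH^i(X) = CH^i(X)`, `F^1 CH^i(X)` consists of the homologically trivial
classes, and `F^(i+1) CH^i(X) = 0`. -/
structure IsFiltration (W : WeilTheory.{u, v, w} C) (P : 𝒱.Obj → Prop) (F : Fil C.toChowData) :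
    Prop where
  anti : ∀ {X : 𝒱.Obj}, P X → ∀ i ν x, In (F X i (ν + 1)) x → In (F X i ν) x
  zero : ∀ {X : 𝒱.Obj}, P X → ∀ i x, In (F X i 0) x ↔ In (C.gr X i) x
  one : ∀ {X : 𝒱.Obj}, P X → ∀ i x, In (F X i 1) x ↔ In (C.gr X i) x ∧ HomTrivial W x
  last : ∀ {X : 𝒱.Obj}, P X → ∀ i x, In (F X i (i + 1)) x → IsNull x

/-- The condition that correspondences act on the graded pieces through cohomology, for all
correspondences between varieties in `P`: if `γ ∈ CH^c(X × Y)` maps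
`CH^i(X)` to `CH^j(Y)` and acts as zero on `H^m(X)`, where `m = 2i - ν`, then `γ` induces the zero
map from `F^ν CH^i(X) / F^(ν+1) CH^i(X)` to `F^ν CH^j(Y) / F^(ν+1) CH^j(Y)`. -/
def FactorsThroughCoh (W : WeilTheory.{u, v, w} C) (P : 𝒱.Obj → Prop) (F : Fil C.toChowData) :
    Prop :=
  ∀ {X Y : 𝒱.Obj}, P X → P Y → ∀ {c i j m ν : ℕ} {γ : C.CH (X.prod Y)} {x : C.CH X},
    In (C.gr (X.prod Y) c) γ → i + c = j + X.dim → m + ν = 2 * i → ZeroOn W m γ →
      In (F X i ν) x → LinMapsInto (C.act γ) (F Y j (ν + 1)) x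

end Pool.Agent.E870.Q
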